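import Mathlib

/-!
# Thin simplices and the Hermite-Hadamard constant (auxiliary file)

Volume, surface measure and the integrals of `max (h - ∑ x_i) 0` for the thin simplex
`{x : x_i > 0, x_0 / w + ∑_{i ≥ 1} x_i < 1}` of `ℝ^(m+1)`, and the resulting lower bound
`const_ge` for the constant in the Hermite-Hadamard inequality for convex functions.
-/

set_option autoImplicit false

open MeasureTheory Set Filter Topology Measure
open scoped ENNReal NNReal Pointwise

namespace Pool.Agent.Helper155_HH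

/-- the open corner simplex in `ℝ^m` -/
def T (m : ℕ) (r : ℝ) : Set (Fin m → ℝ) := {y | (∀ i, 0 < y i) ∧ ∑ i, y i < r}

theorem T_smul {m : ℕ} {r : ℝ} (hr : 0 < r) : T m r = r • T m 1 := by
  ext y
  rw [mem_smul_set_iff_inv_smul_mem₀ hr.ne']
  simp only [T, mem_ofPred_eq, Pi.smul_apply, smul_eq_mul, ← Finset.mul_sum]
  constructor
  · rintro ⟨h1, h2⟩
    refine ⟨fun i => mul_pos (inv_pos.2 hr) (h1 i), ?_⟩
    rw [inv_mul_lt_iff₀ hr]; simpa using h2
  · rintro ⟨h1, h2⟩
    refine ⟨fun i => ?_, ?_⟩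
    · have := h1 i
      exact (mul_pos_iff_of_pos_left (inv_pos.2 hr)).1 this
    · rw [inv_mul_lt_iff₀ hr] at h2; simpa using h2

theorem vol_T {m : ℕ} {r : ℝ} (hr : 0 < r) :
    volume (T m r) = ENNReal.ofReal (r ^ m) * volume (T m 1) := by
  rw [T_smul hr, Measure.addHaar_smul]
  simp [abs_of_pos (pow_pos hr m)]

theorem T_empty {m : ℕ} (hm : 0 < m) {r : ℝ} (hr : r ≤ 0) : T m r = ∅ := by
  ext y
  simp only [T, mem_ofPred_eq, mem_empty_iff_false, iff_false, not_and, not_lt]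
  intro h
  have : Nonempty (Fin m) := ⟨⟨0, hm⟩⟩
  have := Finset.sum_pos (s := Finset.univ) (fun i _ => h i) Finset.univ_nonempty
  linarith

theorem T_open (m : ℕ) (r : ℝ) : IsOpen (T m r) := by
  have : T m r = (⋂ i, {y : Fin m → ℝ | 0 < y i}) ∩ {y | ∑ i, y i < r} := by
    ext y; simp [T]
  rw [this]
  exact (isOpen_iInter_of_finite fun i => isOpen_lt continuous_const (continuous_apply i)).inter
    (isOpen_lt (by fun_prop) continuous_const)

theorem T_pos (m : ℕ) : 0 < volume (T m 1) := by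
  refine (T_open m 1).measure_pos volume ?_
  refine ⟨fun _ => 1 / ((m : ℝ) + 1), fun i => by positivity, ?_⟩
  simp only [Finset.sum_const, Finset.card_univ, Fintype.card_fin, nsmul_eq_mul]
  rw [mul_one_div, div_lt_one (by positivity)]
  linarith

theorem T_subset_Icc (m : ℕ) : T m 1 ⊆ Icc 0 1 := by
  rintro y ⟨h1, h2⟩
  refine ⟨fun i => (h1 i).le, fun i => ?_⟩
  have := Finset.single_le_sum (f := y) (fun j _ => (h1 j).le) (Finset.mem_univ i)
  simpa using this.trans h2.le

theorem T_fin (m : ℕ) : volume (T m 1) < ∞ := by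
  refine lt_of_le_of_lt (measure_mono (T_subset_Icc m)) ?_
  rw [Real.volume_Icc_pi]
  simp

/-- `∫ (h - ∑ y)₊` over the orthant -/
noncomputable def J (m : ℕ) (h : ℝ) : ℝ≥0∞ :=
  ∫⁻ y in {y : Fin m → ℝ | ∀ i, 0 < y i}, ENNReal.ofReal (h - ∑ i, y i)

theorem orth_open (m : ℕ) : IsOpen {y : Fin m → ℝ | ∀ i, 0 < y i} := by
  have : {y : Fin m → ℝ | ∀ i, 0 < y i} = ⋂ i, {y : Fin m → ℝ | 0 < y i} := by ext; simp
  rw [this]
  exact isOpen_iInter_of_finite fun i => isOpen_lt continuous_const (continuous_apply i)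

theorem J_fin {m : ℕ} {h : ℝ} (hh : 0 < h) : J m h < ∞ := by
  have h1 : J m h ≤ ∫⁻ y in T m h, ENNReal.ofReal h := by
    unfold J
    rw [← lintegral_indicator (orth_open m).measurableSet, ← lintegral_indicator (T_open m h).measurableSet]
    refine lintegral_mono fun y => ?_
    by_cases hy : y ∈ {y : Fin m → ℝ | ∀ i, 0 < y i}
    · rw [indicator_of_mem hy]
      by_cases hs : ∑ i, y i < h
      · rw [indicator_of_mem (show y ∈ T m h from ⟨hy, hs⟩)]
        apply ENNReal.ofReal_le_ofReal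
        have := Finset.sum_nonneg (s := Finset.univ) (fun i _ => (hy i).le)
        linarith
      · rw [ENNReal.ofReal_of_nonpos (by linarith)]
        exact zero_le
    · rw [indicator_of_notMem hy]
      exact zero_le
  refine lt_of_le_of_lt h1 ?_
  rw [setLIntegral_const, vol_T hh]
  exact ENNReal.mul_lt_top ENNReal.ofReal_lt_top (ENNReal.mul_lt_top ENNReal.ofReal_lt_top (T_fin m))

theorem J_pos {m : ℕ} {h : ℝ} (hh : 0 < h) : 0 < J m h := by
  have h1 : ∫⁻ y in T m (h / 2), ENNReal.ofReal (h / 2) ≤ J m h := by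
    unfold J
    rw [← lintegral_indicator (orth_open m).measurableSet, ← lintegral_indicator (T_open m _).measurableSet]
    refine lintegral_mono fun y => ?_
    by_cases hy : y ∈ T m (h / 2)
    · rw [indicator_of_mem hy, indicator_of_mem (show y ∈ {y : Fin m → ℝ | ∀ i, 0 < y i} from hy.1)]
      apply ENNReal.ofReal_le_ofReal
      linarith [hy.2]
    · rw [indicator_of_notMem hy]
      exact zero_le
  refine lt_of_lt_of_le ?_ h1
  rw [setLIntegral_const, vol_T (by positivity)]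
  have h2 : 0 < ENNReal.ofReal (h / 2) := ENNReal.ofReal_pos.2 (by positivity)
  have h3 : 0 < ENNReal.ofReal ((h / 2) ^ m) := ENNReal.ofReal_pos.2 (by positivity)
  exact ENNReal.mul_pos h2.ne' (ENNReal.mul_pos h3.ne' (T_pos m).ne').ne'


/-- the thin simplex in `ℝ^(m+1)` -/
def Om (m : ℕ) (w : ℝ) : Set (EuclideanSpace ℝ (Fin (m + 1))) :=
  {x | (∀ i, 0 < x i) ∧ x 0 / w + ∑ i : Fin m, x i.succ < 1}

/-- the product model -/
def Omp (m : ℕ) (w : ℝ) : Set (ℝ × (Fin m → ℝ)) :=
  {p | 0 < p.1 ∧ (∀ i, 0 < p.2 i) ∧ p.1 / w + ∑ i, p.2 i < 1}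

/-- splitting off the first coordinate -/
def split (m : ℕ) (x : EuclideanSpace ℝ (Fin (m + 1))) : ℝ × (Fin m → ℝ) :=
  MeasurableEquiv.piFinSuccAbove (fun _ => ℝ) 0 (WithLp.ofLp x)

theorem split_mp (m : ℕ) : MeasurePreserving (split m) volume volume :=
  (volume_preserving_piFinSuccAbove (fun _ : Fin (m + 1) => ℝ) 0).comp
    (PiLp.volume_preserving_ofLp (Fin (m + 1)))

theorem split_fst (m : ℕ) (x : EuclideanSpace ℝ (Fin (m + 1))) : (split m x).1 = x 0 := rfl

theorem split_snd (m : ℕ) (x : EuclideanSpace ℝ (Fin (m + 1))) (i : Fin m) :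
    (split m x).2 i = x i.succ := rfl

theorem Om_eq (m : ℕ) (w : ℝ) : Om m w = split m ⁻¹' Omp m w := by
  ext x
  simp only [Om, Omp, mem_preimage, mem_ofPred_eq, split_fst, split_snd, Fin.forall_fin_succ, and_assoc]

theorem Omp_open (m : ℕ) (w : ℝ) : IsOpen (Omp m w) := by
  have : Omp m w = {p | 0 < p.1} ∩ ((⋂ i, {p : ℝ × (Fin m → ℝ) | 0 < p.2 i})
      ∩ {p | p.1 / w + ∑ i, p.2 i < 1}) := by
    ext y; simp [Omp]
  rw [this]
  exact (isOpen_lt continuous_const continuous_fst).inter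
    ((isOpen_iInter_of_finite fun i => isOpen_lt continuous_const (by fun_prop)).inter
    (isOpen_lt (by fun_prop) continuous_const))

theorem int_pow (m : ℕ) {w : ℝ} (hw : 0 < w) :
    ∫⁻ t in Ioo 0 w, ENNReal.ofReal ((1 - t / w) ^ m) = ENNReal.ofReal (w / (m + 1)) := by
  rw [← ofReal_integral_eq_lintegral_ofReal]
  · congr 1
    rw [← integral_Ioc_eq_integral_Ioo, ← intervalIntegral.integral_of_le hw.le]
    rw [intervalIntegral.integral_comp_sub_div (fun x => x ^ m) hw.ne' 1]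
    rw [div_self hw.ne', integral_pow]
    simp
    ring
  · exact (Continuous.integrableOn_Icc (by fun_prop)).mono_set Ioo_subset_Icc_self
  · refine (ae_restrict_iff' measurableSet_Ioo).2 (Eventually.of_forall fun t ht => ?_)
    have : 0 ≤ 1 - t / w := by
      have := (div_lt_one hw).2 ht.2
      linarith
    positivity

theorem vol_Omp {m : ℕ} (hm : 0 < m) {w : ℝ} (hw : 0 < w) :
    volume (Omp m w) = ENNReal.ofReal (w / (m + 1)) * volume (T m 1) := by
  rw [Measure.volume_eq_prod, Measure.prod_apply (Omp_open m w).measurableSet]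
  have hsl : ∀ t : ℝ, volume (Prod.mk t ⁻¹' Omp m w)
      = (Ioo 0 w).indicator (fun t => ENNReal.ofReal ((1 - t / w) ^ m) * volume (T m 1)) t := by
    intro t
    by_cases ht : t ∈ Ioo 0 w
    · rw [indicator_of_mem ht]
      have h1 : 0 < 1 - t / w := by
        have := (div_lt_one hw).2 ht.2
        linarith
      rw [← vol_T h1]
      congr 1
      ext y
      simp only [Omp, T, mem_preimage, mem_ofPred_eq]
      constructor
      · rintro ⟨_, h2, h3⟩; exact ⟨h2, by linarith⟩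
      · rintro ⟨h2, h3⟩; exact ⟨ht.1, h2, by linarith⟩
    · rw [indicator_of_notMem ht]
      have : Prod.mk t ⁻¹' Omp m w = ∅ := by
        ext y
        simp only [Omp, mem_preimage, mem_ofPred_eq, mem_empty_iff_false, iff_false]
        rintro ⟨h1, h2, h3⟩
        have h4 : 0 < w := hw
        have h5 : w ≤ t := by
          by_contra hcon
          exact ht ⟨h1, not_le.1 hcon⟩
        have h6 : y ∈ T m (1 - t / w) := ⟨h2, by linarith⟩
        rw [T_empty hm (by have := (one_le_div hw).2 h5; linarith)] at h6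
        exact h6
      rw [this, measure_empty]
  simp_rw [hsl]
  rw [lintegral_indicator measurableSet_Ioo, lintegral_mul_const _ (by fun_prop), int_pow m hw]

theorem vol_Om {m : ℕ} (hm : 0 < m) {w : ℝ} (hw : 0 < w) :
    volume (Om m w) = ENNReal.ofReal (w / (m + 1)) * volume (T m 1) := by
  rw [Om_eq, (split_mp m).measure_preimage (Omp_open m w).measurableSet.nullMeasurableSet, vol_Omp hm hw]

theorem int_Om_ge {m : ℕ} {w h : ℝ} (hw : 0 < w) :
    ENNReal.ofReal (w * (1 - h)) * J m h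
      ≤ ∫⁻ x in Om m w, ENNReal.ofReal (h - ∑ i : Fin m, x i.succ) := by
  have h1 : ∫⁻ x in Om m w, ENNReal.ofReal (h - ∑ i : Fin m, x i.succ)
      = ∫⁻ p in Omp m w, ENNReal.ofReal (h - ∑ i : Fin m, p.2 i) := by
    rw [Om_eq, ← (split_mp m).setLIntegral_comp_preimage (Omp_open m w).measurableSet (by fun_prop)]
    rfl
  rw [h1]
  have h2 : ∫⁻ p in (Ioo 0 (w * (1 - h))) ×ˢ {y : Fin m → ℝ | ∀ i, 0 < y i},
      ENNReal.ofReal (h - ∑ i : Fin m, p.2 i) = ENNReal.ofReal (w * (1 - h)) * J m h := by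
    rw [Measure.volume_eq_prod, ← Measure.prod_restrict]
    have := lintegral_prod_mul (μ := (volume : Measure ℝ).restrict (Ioo 0 (w * (1 - h))))
      (ν := (volume : Measure (Fin m → ℝ)).restrict {y : Fin m → ℝ | ∀ i, 0 < y i})
      (f := fun _ => 1) (g := fun y => ENNReal.ofReal (h - ∑ i : Fin m, y i))
      (by fun_prop) (by fun_prop)
    simp only [one_mul] at this
    rw [this]
    simp [J]
  rw [← h2, ← lintegral_indicator (Omp_open m w).measurableSet,
    ← lintegral_indicator (measurableSet_Ioo.prod (orth_open m).measurableSet)]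
  refine lintegral_mono fun p => ?_
  by_cases hp : p ∈ (Ioo 0 (w * (1 - h))) ×ˢ {y : Fin m → ℝ | ∀ i, 0 < y i}
  · rw [indicator_of_mem hp]
    by_cases hs : ∑ i, p.2 i < h
    · rw [indicator_of_mem]
      refine ⟨hp.1.1, hp.2, ?_⟩
      have := hp.1.2
      have : p.1 / w < 1 - h := by
        rw [div_lt_iff₀ hw]; linarith
      linarith
    · rw [ENNReal.ofReal_of_nonpos (by linarith)]
      exact zero_le
  · rw [indicator_of_notMem hp]
    exact zero_le


section image

variable {X Y : Type*} [EMetricSpace X] [MeasurableSpace X] [BorelSpace X]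
  [EMetricSpace Y] [MeasurableSpace Y] [BorelSpace Y]

theorem image_le {K : ℝ≥0} {f : X → Y} (hf : LipschitzWith K f) (d : ℕ) (s : Set X) :
    (μHE[d] : Measure Y) (f '' s) ≤ (K : ℝ≥0∞) ^ d * (μHE[d] : Measure X) s := by
  rw [euclideanHausdorffMeasure_def, euclideanHausdorffMeasure_def]
  simp only [Measure.smul_apply, ENNReal.smul_def, smul_eq_mul]
  have h := hf.hausdorffMeasure_image_le (d := (d : ℝ)) (by positivity) s
  rw [ENNReal.rpow_natCast] at h
  calc _ ≤ _ := mul_le_mul_right h _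
    _ = _ := by ring

theorem restrict_image_le {K : ℝ≥0} {f : X → Y} (hf : LipschitzWith K f) (d : ℕ) (S : Set X) :
    (μHE[d] : Measure Y).restrict (f '' S)
      ≤ ((K : ℝ≥0∞) ^ d) • ((μHE[d] : Measure X).restrict S).map f := by
  rw [Measure.le_iff]
  intro A hA
  have hfm : Measurable f := hf.continuous.measurable
  rw [Measure.restrict_apply hA, Measure.smul_apply, Measure.map_apply hfm hA,
    Measure.restrict_apply (hfm hA), smul_eq_mul]
  refine le_trans (measure_mono ?_) (image_le hf d _)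
  rintro _ ⟨h1, x, hx, rfl⟩
  exact ⟨x, ⟨h1, hx⟩, rfl⟩

theorem lintegral_image_le {K : ℝ≥0} {f : X → Y} (hf : LipschitzWith K f) (d : ℕ) (S : Set X)
    {G : Y → ℝ≥0∞} (hG : Measurable G) :
    ∫⁻ y in f '' S, G y ∂(μHE[d] : Measure Y)
      ≤ (K : ℝ≥0∞) ^ d * ∫⁻ x in S, G (f x) ∂(μHE[d] : Measure X) := by
  refine le_trans (lintegral_mono' (restrict_image_le hf d S) le_rfl) ?_
  rw [lintegral_smul_measure, lintegral_map hG hf.continuous.measurable, smul_eq_mul]

end image

/-- insertion of a zero coordinate -/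
def iota {m : ℕ} (j : Fin (m + 1)) (y : EuclideanSpace ℝ (Fin m)) : EuclideanSpace ℝ (Fin (m + 1)) :=
  WithLp.toLp 2 (j.insertNth (α := fun _ => ℝ) 0 (WithLp.ofLp y))

theorem iota_same {m : ℕ} (j : Fin (m + 1)) (y : EuclideanSpace ℝ (Fin m)) : iota j y j = 0 := by
  simp [iota]

theorem iota_succAbove {m : ℕ} (j : Fin (m + 1)) (y : EuclideanSpace ℝ (Fin m)) (i : Fin m) :
    iota j y (j.succAbove i) = y i := by
  simp [iota]

theorem iota_isometry {m : ℕ} (j : Fin (m + 1)) : Isometry (iota j) := by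
  refine Isometry.of_dist_eq fun y z => ?_
  rw [EuclideanSpace.dist_eq, EuclideanSpace.dist_eq, Fin.sum_univ_succAbove _ j]
  simp [iota_same, iota_succAbove]

/-- the graph parametrisation of the slanted face -/
noncomputable def psi {m : ℕ} (w : ℝ) (y : EuclideanSpace ℝ (Fin m)) : EuclideanSpace ℝ (Fin (m + 1)) :=
  WithLp.toLp 2 (Fin.cons (α := fun _ => ℝ) (w * (1 - ∑ i, y i)) (WithLp.ofLp y))

theorem psi_zero {m : ℕ} (w : ℝ) (y : EuclideanSpace ℝ (Fin m)) : psi w y 0 = w * (1 - ∑ i, y i) := by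
  simp [psi]

theorem psi_succ {m : ℕ} (w : ℝ) (y : EuclideanSpace ℝ (Fin m)) (i : Fin m) : psi w y i.succ = y i := by
  simp [psi]

theorem psi_lip {m : ℕ} {w : ℝ} (hw : 0 ≤ w) :
    LipschitzWith (Real.toNNReal (1 + m * w)) (psi (m := m) w) := by
  refine LipschitzWith.of_dist_le_mul fun y z => ?_
  rw [Real.coe_toNNReal _ (by positivity)]
  rw [EuclideanSpace.dist_eq (psi w y), Fin.sum_univ_succ]
  simp only [psi_zero, psi_succ]
  have h1 : √(∑ i, dist (y i) (z i) ^ 2) = dist y z := (EuclideanSpace.dist_eq y z).symm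
  have h2 : ∑ i, dist (y i) (z i) ^ 2 = dist y z ^ 2 := by
    rw [← h1, Real.sq_sqrt (Finset.sum_nonneg fun i _ => sq_nonneg _)]
  rw [h2]
  have h3 : ∀ i, |y i - z i| ≤ dist y z := by
    intro i
    rw [← Real.dist_eq, ← h1]
    refine Real.le_sqrt_of_sq_le ?_
    exact Finset.single_le_sum (f := fun i => dist (y i) (z i) ^ 2) (fun i _ => sq_nonneg _) (Finset.mem_univ i)
  have h4 : |∑ i, y i - ∑ i, z i| ≤ m * dist y z := by
    rw [← Finset.sum_sub_distrib]
    refine le_trans (Finset.abs_sum_le_sum_abs _ _) ?_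
    refine le_trans (Finset.sum_le_sum fun i _ => h3 i) ?_
    simp
  have h5 : dist (w * (1 - ∑ i, y i)) (w * (1 - ∑ i, z i)) ≤ w * (m * dist y z) := by
    rw [Real.dist_eq, ← mul_sub, abs_mul, abs_of_nonneg hw]
    refine mul_le_mul_of_nonneg_left ?_ hw
    rw [show (1 - ∑ i, y i) - (1 - ∑ i, z i) = -(∑ i, y i - ∑ i, z i) by ring, abs_neg]
    exact h4
  refine Real.sqrt_le_iff.2 ⟨by positivity, ?_⟩
  have h6 : (0 : ℝ) ≤ dist (w * (1 - ∑ i, y i)) (w * (1 - ∑ i, z i)) := dist_nonneg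
  have h7 : 0 ≤ dist y z := dist_nonneg
  have h8 : 0 ≤ w * (m * dist y z) := by positivity
  nlinarith [mul_le_mul h5 h5 h6 h8, mul_nonneg h7 h8]

/-- forgetting the first coordinate -/
def proj {m : ℕ} (x : EuclideanSpace ℝ (Fin (m + 1))) : EuclideanSpace ℝ (Fin m) :=
  WithLp.toLp 2 (fun i => x i.succ)

theorem proj_apply {m : ℕ} (x : EuclideanSpace ℝ (Fin (m + 1))) (i : Fin m) : proj x i = x i.succ := rfl

theorem proj_lip {m : ℕ} : LipschitzWith 1 (proj (m := m)) := by
  refine LipschitzWith.of_dist_le_mul fun y z => ?_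
  rw [NNReal.coe_one, one_mul, EuclideanSpace.dist_eq, EuclideanSpace.dist_eq y, Fin.sum_univ_succ]
  refine Real.sqrt_le_sqrt ?_
  simp only [proj_apply]
  have := sq_nonneg (dist (y 0) (z 0))
  linarith

/-- the closed corner simplex -/
def Tc (m : ℕ) : Set (EuclideanSpace ℝ (Fin m)) := {y | (∀ i, 0 ≤ y i) ∧ ∑ i, y i ≤ 1}

/-- a thin box -/
def Bx (k : ℕ) (w : ℝ) : Set (EuclideanSpace ℝ (Fin (k + 1))) :=
  {y | 0 ≤ y 0 ∧ y 0 ≤ w ∧ ∀ i : Fin k, 0 ≤ y i.succ ∧ y i.succ ≤ 1}

theorem frontier_sub (k : ℕ) {w : ℝ} (hw : 0 < w) :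
    frontier (Om (k + 1) w) ⊆ (iota 0 '' Tc (k + 1)) ∪ ((psi w '' Tc (k + 1))
      ∪ ⋃ i : Fin (k + 1), iota i.succ '' Bx k w) := by
  intro x hx
  have hopen : IsOpen (Om (k + 1) w) := by
    rw [Om_eq]
    refine (Omp_open _ _).preimage ?_
    have : split (k + 1) = fun x : EuclideanSpace ℝ (Fin (k + 1 + 1)) => (x 0, fun i : Fin (k + 1) => x i.succ) := by
      funext x; rfl
    rw [this]
    fun_prop
  rw [hopen.frontier_eq] at hx
  have hcl : x ∈ {x : EuclideanSpace ℝ (Fin (k + 1 + 1)) | (∀ i, 0 ≤ x i) ∧ x 0 / w + ∑ i : Fin (k + 1), x i.succ ≤ 1} := by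
    refine closure_minimal ?_ ?_ hx.1
    · rintro y ⟨h1, h2⟩
      exact ⟨fun i => (h1 i).le, h2.le⟩
    · have : {x : EuclideanSpace ℝ (Fin (k + 1 + 1)) | (∀ i, 0 ≤ x i) ∧ x 0 / w + ∑ i : Fin (k + 1), x i.succ ≤ 1}
        = (⋂ i, {x : EuclideanSpace ℝ (Fin (k + 1 + 1)) | 0 ≤ x i}) ∩ {x | x 0 / w + ∑ i : Fin (k + 1), x i.succ ≤ 1} := by
        ext y; simp
      rw [this]
      exact (isClosed_iInter fun i => isClosed_le continuous_const (by fun_prop)).inter
        (isClosed_le (by fun_prop) continuous_const)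
  obtain ⟨h1, h2⟩ := hcl
  have h0w : 0 ≤ x 0 / w := div_nonneg (h1 0) hw.le
  have hsum : ∑ i : Fin (k + 1), x i.succ ≤ 1 := by linarith
  have hle : ∀ i : Fin (k + 1), x i.succ ≤ 1 := fun i =>
    le_trans (Finset.single_le_sum (f := fun i : Fin (k + 1) => x i.succ) (fun j _ => h1 _) (Finset.mem_univ i)) hsum
  have hxw : x 0 ≤ w := by
    have : x 0 / w ≤ 1 := by
      have := Finset.sum_nonneg (s := Finset.univ) (fun i (_ : i ∈ Finset.univ) => h1 (Fin.succ (n := k + 1) i))
      linarith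
    rwa [div_le_one hw] at this
  by_cases hx0 : x 0 = 0
  · left
    refine ⟨proj x, ⟨fun i => h1 _, hsum⟩, ?_⟩
    ext i
    refine Fin.cases ?_ (fun j => ?_) i
    · rw [iota_same, hx0]
    · have := iota_succAbove 0 (proj x) j
      rw [Fin.zero_succAbove] at this
      rw [this, proj_apply]
  · right
    by_cases hs : x 0 / w + ∑ i : Fin (k + 1), x i.succ = 1
    · left
      refine ⟨proj x, ⟨fun i => h1 _, hsum⟩, ?_⟩
      ext i
      refine Fin.cases ?_ (fun j => ?_) i
      · rw [psi_zero]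
        simp only [proj_apply]
        rw [← hs]
        field_simp
        ring
      · rw [psi_succ, proj_apply]
    · right
      have : ∃ i, x i = 0 := by
        by_contra hcon
        push Not at hcon
        exact hx.2 ⟨fun i => lt_of_le_of_ne (h1 i) (hcon i).symm, lt_of_le_of_ne h2 hs⟩
      obtain ⟨i, hi⟩ := this
      have hi0 : i ≠ 0 := fun h => hx0 (h ▸ hi)
      obtain ⟨j, rfl⟩ := Fin.exists_succ_eq.2 hi0
      rw [mem_iUnion]
      refine ⟨j, WithLp.toLp 2 (fun a => x (j.succ.succAbove a)), ?_, ?_⟩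
      · refine ⟨h1 _, ?_, fun a => ⟨h1 _, ?_⟩⟩
        · change x (j.succ.succAbove 0) ≤ w
          rw [Fin.succ_succAbove_zero]
          exact hxw
        · change x (j.succ.succAbove a.succ) ≤ 1
          rw [Fin.succ_succAbove_succ]
          exact hle _
      · ext a
        refine Fin.succAboveCases j.succ ?_ (fun b => ?_) a
        · rw [iota_same, hi]
        · rw [iota_succAbove]


theorem vol_Tc (m : ℕ) : volume (Tc m) ≤ 1 := by
  have h : Tc m ⊆ WithLp.ofLp ⁻¹' (Icc (0 : Fin m → ℝ) 1) := by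
    rintro y ⟨h1, h2⟩
    refine ⟨fun i => h1 i, fun i => ?_⟩
    have := Finset.single_le_sum (f := fun i => y i) (fun j _ => h1 j) (Finset.mem_univ i)
    simpa using this.trans h2
  refine le_trans (measure_mono h) ?_
  rw [(PiLp.volume_preserving_ofLp (Fin m)).measure_preimage measurableSet_Icc.nullMeasurableSet,
    Real.volume_Icc_pi]
  simp

theorem vol_Bx (k : ℕ) {w : ℝ} : volume (Bx k w) = ENNReal.ofReal w := by
  have h : Bx k w = WithLp.ofLp ⁻¹' (Icc (0 : Fin (k + 1) → ℝ) (Fin.cons w (fun _ => 1))) := by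
    ext y
    simp only [Bx, mem_ofPred_eq, mem_preimage, mem_Icc, Pi.le_def, Fin.forall_fin_succ,
      Fin.cons_zero, Fin.cons_succ, Pi.zero_apply]
    constructor
    · rintro ⟨h1, h2, h3⟩; exact ⟨⟨h1, fun i => (h3 i).1⟩, h2, fun i => (h3 i).2⟩
    · rintro ⟨⟨h1, h3⟩, h2, h4⟩; exact ⟨h1, h2, fun i => ⟨h3 i, h4 i⟩⟩
  rw [h, (PiLp.volume_preserving_ofLp (Fin (k + 1))).measure_preimage measurableSet_Icc.nullMeasurableSet,
    Real.volume_Icc_pi, Fin.prod_univ_succ]
  simp

theorem int_Tc_le (m : ℕ) (h : ℝ) :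
    ∫⁻ y in Tc m, ENNReal.ofReal (h - ∑ i, y i) ≤ J m h := by
  have h1 : Tc m ⊆ WithLp.ofLp ⁻¹' (Ici (0 : Fin m → ℝ)) := by
    rintro y ⟨h1, h2⟩
    exact fun i => h1 i
  refine le_trans (lintegral_mono_set h1) ?_
  have h2 : ∫⁻ y in WithLp.ofLp ⁻¹' (Ici (0 : Fin m → ℝ)), ENNReal.ofReal (h - ∑ i, (y : EuclideanSpace ℝ (Fin m)) i)
      = ∫⁻ y in Ici (0 : Fin m → ℝ), ENNReal.ofReal (h - ∑ i, y i) := by
    rw [← (PiLp.volume_preserving_ofLp (Fin m)).setLIntegral_comp_preimage measurableSet_Ici (by fun_prop)]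
  rw [h2]
  have h3 : (Ici (0 : Fin m → ℝ) : Set (Fin m → ℝ)) =ᵐ[volume] {y : Fin m → ℝ | ∀ i, 0 < y i} := by
    have h4 := (univ_pi_Ioi_ae_eq_Ici (μ := fun _ : Fin m => (volume : Measure ℝ)) (f := (0 : Fin m → ℝ))).symm
    have h5 : (univ.pi fun i => Ioi ((0 : Fin m → ℝ) i)) = {y : Fin m → ℝ | ∀ i, 0 < y i} := by
      ext y; simp [Set.mem_pi]
    rw [h5] at h4
    exact h4
  rw [setLIntegral_congr h3]
  rfl

theorem lintegral_frontier_le (k : ℕ) {w : ℝ} (hw : 0 < w)
    {G : EuclideanSpace ℝ (Fin (k + 2)) → ℝ≥0∞} (hG : Measurable G) :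
    ∫⁻ x in frontier (Om (k + 1) w), G x ∂(μHE[k + 1])
      ≤ (∫⁻ y in Tc (k + 1), G (iota 0 y))
        + ((Real.toNNReal (1 + (k + 1 : ℕ) * w) : ℝ≥0∞) ^ (k + 1) * (∫⁻ y in Tc (k + 1), G (psi w y))
        + ∑ i : Fin (k + 1), (∫⁻ y in Bx k w, G (iota i.succ y))) := by
  refine le_trans (lintegral_mono_set (frontier_sub k hw)) ?_
  refine le_trans (lintegral_union_le _ _ _) (add_le_add ?_ ?_)
  · refine le_trans (lintegral_image_le (iota_isometry 0).lipschitz (k + 1) _ hG) ?_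
    rw [EuclideanSpace.euclideanHausdorffMeasure_eq_volume]
    simp
  refine le_trans (lintegral_union_le _ _ _) (add_le_add ?_ ?_)
  · refine le_trans (lintegral_image_le (psi_lip hw.le) (k + 1) _ hG) ?_
    rw [EuclideanSpace.euclideanHausdorffMeasure_eq_volume]
  · refine le_trans (lintegral_iUnion_le _ _) ?_
    rw [tsum_fintype]
    refine Finset.sum_le_sum fun i _ => ?_
    refine le_trans (lintegral_image_le (iota_isometry i.succ).lipschitz (k + 1) _ hG) ?_
    rw [EuclideanSpace.euclideanHausdorffMeasure_eq_volume]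
    simp

theorem surf_fin (k : ℕ) {w : ℝ} (hw : 0 < w) :
    (μHE[k + 1] : Measure (EuclideanSpace ℝ (Fin (k + 2)))) (frontier (Om (k + 1) w)) < ∞ := by
  have h := lintegral_frontier_le k hw (G := fun _ => 1) measurable_const
  simp only [lintegral_const, one_mul, Measure.restrict_apply MeasurableSet.univ, univ_inter] at h
  refine lt_of_le_of_lt h ?_
  have h1 : volume (Tc (k + 1)) < ∞ := lt_of_le_of_lt (vol_Tc _) ENNReal.one_lt_top
  simp only [vol_Bx]
  refine ENNReal.add_lt_top.2 ⟨h1, ENNReal.add_lt_top.2 ⟨?_, ?_⟩⟩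
  · exact ENNReal.mul_lt_top (ENNReal.pow_lt_top ENNReal.coe_lt_top) h1
  · exact ENNReal.sum_lt_top.2 fun _ _ => ENNReal.ofReal_lt_top

theorem int_frontier_le (k : ℕ) {w h : ℝ} (hw : 0 < w) :
    ∫⁻ x in frontier (Om (k + 1) w), ENNReal.ofReal (h - ∑ i : Fin (k + 1), x i.succ) ∂(μHE[k + 1])
      ≤ J (k + 1) h + ((Real.toNNReal (1 + (k + 1 : ℕ) * w) : ℝ≥0∞) ^ (k + 1) * J (k + 1) h
        + (k + 1 : ℕ) * (ENNReal.ofReal h * ENNReal.ofReal w)) := by
  refine le_trans (lintegral_frontier_le k hw (by fun_prop)) (add_le_add ?_ (add_le_add ?_ ?_))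
  · have : ∀ y : EuclideanSpace ℝ (Fin (k + 1)), ∑ i : Fin (k + 1), iota 0 y i.succ = ∑ i, y i := by
      intro y
      refine Finset.sum_congr rfl fun i _ => ?_
      have := iota_succAbove 0 y i
      rwa [Fin.zero_succAbove] at this
    simp only [this]
    exact int_Tc_le _ _
  · simp only [psi_succ]
    exact mul_le_mul_right (int_Tc_le _ _) _
  · refine le_trans (Finset.sum_le_sum (g := fun _ => ENNReal.ofReal h * ENNReal.ofReal w) fun i _ => ?_) (by simp)
    rw [← vol_Bx k (w := w), ← setLIntegral_const]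
    have hmeas : MeasurableSet (Bx k w) := by
      have h : Bx k w = WithLp.ofLp ⁻¹' (Icc (0 : Fin (k + 1) → ℝ) (Fin.cons w (fun _ => 1))) := by
        ext y
        simp only [Bx, mem_ofPred_eq, mem_preimage, mem_Icc, Pi.le_def, Fin.forall_fin_succ,
          Fin.cons_zero, Fin.cons_succ, Pi.zero_apply]
        constructor
        · rintro ⟨h1, h2, h3⟩; exact ⟨⟨h1, fun i => (h3 i).1⟩, h2, fun i => (h3 i).2⟩
        · rintro ⟨⟨h1, h3⟩, h2, h4⟩; exact ⟨h1, h2, fun i => ⟨h3 i, h4 i⟩⟩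
      rw [h]
      exact (PiLp.volume_preserving_ofLp (Fin (k + 1))).measurable measurableSet_Icc
    refine setLIntegral_mono' hmeas fun y hy => ?_
    apply ENNReal.ofReal_le_ofReal
    have hnn : ∀ b, 0 ≤ y b := by
      intro b
      refine Fin.cases hy.1 (fun c => (hy.2.2 c).1) b
    have : 0 ≤ ∑ j : Fin (k + 1), iota i.succ y j.succ := by
      refine Finset.sum_nonneg fun j _ => ?_
      refine Fin.succAboveCases i.succ (α := fun a => 0 ≤ iota i.succ y a) ?_ (fun b => ?_) j.succ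
      · rw [iota_same]
      · rw [iota_succAbove]; exact hnn b
    linarith

/-- the vertical line over `y` -/
def crv {m : ℕ} (y : EuclideanSpace ℝ (Fin m)) (t : ℝ) : EuclideanSpace ℝ (Fin (m + 1)) :=
  WithLp.toLp 2 (Fin.cons (α := fun _ => ℝ) t (WithLp.ofLp y))

theorem crv_zero {m : ℕ} (y : EuclideanSpace ℝ (Fin m)) (t : ℝ) : crv y t 0 = t := by simp [crv]

theorem crv_succ {m : ℕ} (y : EuclideanSpace ℝ (Fin m)) (t : ℝ) (i : Fin m) : crv y t i.succ = y i := by
  simp [crv]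

theorem crv_cont {m : ℕ} (y : EuclideanSpace ℝ (Fin m)) : Continuous (crv y) := by
  refine (PiLp.continuous_toLp 2 _).comp (continuous_pi fun i => ?_)
  refine Fin.cases ?_ (fun j => ?_) i
  · simp only [Fin.cons_zero]; exact continuous_id
  · simp only [Fin.cons_succ]; exact continuous_const

theorem crv_mem {m : ℕ} {w : ℝ} (hw : 0 < w) {y : EuclideanSpace ℝ (Fin m)}
    (hy : (∀ i, 0 < y i) ∧ ∑ i, y i < 1) {t : ℝ} (ht : t ∈ Icc 0 (w * (1 - ∑ i, y i))) :
    crv y t ∈ closure (Om m w) := by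
  have h0 : 0 < w * (1 - ∑ i, y i) := mul_pos hw (by linarith [hy.2])
  rw [← closure_Ioo h0.ne] at ht
  have h1 : crv y '' closure (Ioo 0 (w * (1 - ∑ i, y i))) ⊆ closure (crv y '' Ioo 0 (w * (1 - ∑ i, y i))) :=
    image_closure_subset_closure_image (crv_cont y)
  refine closure_mono ?_ (h1 ⟨t, ht, rfl⟩)
  rintro _ ⟨s, hs, rfl⟩
  refine ⟨fun i => ?_, ?_⟩
  · refine Fin.cases ?_ (fun j => ?_) i
    · rw [crv_zero]; exact hs.1
    · rw [crv_succ]; exact hy.1 j
  · simp only [crv_zero, crv_succ]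
    have := (div_lt_iff₀ hw).2 (show s < (1 - ∑ i, y i) * w by linarith [hs.2])
    linarith

theorem surf_ge (m : ℕ) {w : ℝ} (hw : 0 < w) :
    2 * volume (T m 1) ≤ (μHE[m] : Measure (EuclideanSpace ℝ (Fin (m + 1)))) (frontier (Om m w)) := by
  set T' : Set (EuclideanSpace ℝ (Fin m)) := WithLp.ofLp ⁻¹' T m 1 with hT'
  have hvT : volume T' = volume (T m 1) :=
    (PiLp.volume_preserving_ofLp (Fin m)).measure_preimage (T_open m 1).measurableSet.nullMeasurableSet
  have hopen : IsOpen (Om m w) := by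
    rw [Om_eq]
    refine (Omp_open _ _).preimage ?_
    have : split m = fun x : EuclideanSpace ℝ (Fin (m + 1)) => (x 0, fun i : Fin m => x i.succ) := by
      funext x; rfl
    rw [this]
    fun_prop
  have hcl0 : MeasurableSet {x : EuclideanSpace ℝ (Fin (m + 1)) | x 0 = 0} :=
    (isClosed_eq (by fun_prop) continuous_const).measurableSet
  rw [← measure_inter_add_sdiff _ hcl0, two_mul]
  refine add_le_add ?_ ?_
  · have h1 : iota 0 '' T' ⊆ frontier (Om m w) ∩ {x | x 0 = 0} := by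
      rintro _ ⟨y, hy, rfl⟩
      have he : iota 0 y = crv y 0 := by simp [iota, crv]
      refine ⟨?_, by rw [mem_ofPred_eq, iota_same]⟩
      rw [hopen.frontier_eq, he]
      refine ⟨crv_mem hw hy ⟨le_rfl, mul_nonneg hw.le ?_⟩, ?_⟩
      · have := hy.2; linarith
      · intro hmem
        have := hmem.1 0
        rw [crv_zero] at this
        exact lt_irrefl _ this
    rw [← hvT, ← EuclideanSpace.euclideanHausdorffMeasure_eq_volume, ← (iota_isometry 0).euclideanHausdorffMeasure_image]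
    exact measure_mono h1
  · have h1 : psi w '' T' ⊆ frontier (Om m w) \ {x | x 0 = 0} := by
      rintro _ ⟨y, hy, rfl⟩
      have he : psi w y = crv y (w * (1 - ∑ i, y i)) := rfl
      have h0 : 0 < w * (1 - ∑ i, y i) := mul_pos hw (by have := hy.2; linarith)
      refine ⟨?_, ?_⟩
      · rw [hopen.frontier_eq, he]
        refine ⟨crv_mem hw hy ⟨h0.le, le_rfl⟩, ?_⟩
        intro hmem
        have := hmem.2
        simp only [crv_zero, crv_succ] at this
        rw [mul_div_assoc, mul_comm, div_mul_cancel₀ _ hw.ne'] at this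
        linarith
      · rw [mem_ofPred_eq, psi_zero]
        exact h0.ne'
    have h2 : proj '' (psi w '' T') = T' := by
      rw [image_image]
      have : ∀ y : EuclideanSpace ℝ (Fin m), proj (psi w y) = y := by
        intro y; ext i; rw [proj_apply, psi_succ]
      simp [this]
    have h3 := image_le (proj_lip (m := m)) m (psi w '' T')
    rw [h2, EuclideanSpace.euclideanHausdorffMeasure_eq_volume, hvT] at h3
    simp only [ENNReal.coe_one, one_pow, one_mul] at h3
    exact h3.trans (measure_mono h1)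


theorem ofReal_max (a : ℝ) : ENNReal.ofReal (max a 0) = ENNReal.ofReal a := by
  rcases le_total a 0 with h | h
  · rw [max_eq_right h, ENNReal.ofReal_of_nonpos h, ENNReal.ofReal_zero]
  · rw [max_eq_left h]

/-- the test function -/
noncomputable def ff (m : ℕ) (h : ℝ) (x : EuclideanSpace ℝ (Fin (m + 1))) : ℝ :=
  max (h - ∑ i : Fin m, x i.succ) 0

theorem ff_cont (m : ℕ) (h : ℝ) : Continuous (ff m h) := by
  unfold ff
  fun_prop

theorem ff_int (m : ℕ) (h : ℝ) (μ : Measure (EuclideanSpace ℝ (Fin (m + 1)))) :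
    ∫ x, ff m h x ∂μ = (∫⁻ x, ENNReal.ofReal (h - ∑ i : Fin m, x i.succ) ∂μ).toReal := by
  have h0 : ∀ x, (0 : ℝ) ≤ ff m h x := fun x => le_max_right _ _
  rw [integral_eq_lintegral_of_nonneg_ae (f := ff m h) (Eventually.of_forall h0)
    (ff_cont m h).measurable.aestronglyMeasurable]
  simp only [ff, ofReal_max]

theorem Om_open (m : ℕ) (w : ℝ) : IsOpen (Om m w) := by
  rw [Om_eq]
  refine (Omp_open _ _).preimage ?_
  have : split m = fun x : EuclideanSpace ℝ (Fin (m + 1)) => (x 0, fun i : Fin m => x i.succ) := by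
    funext x; rfl
  rw [this]
  fun_prop

theorem int_Om_fin {m : ℕ} (hm : 0 < m) {w h : ℝ} (hw : 0 < w) :
    ∫⁻ x in Om m w, ENNReal.ofReal (h - ∑ i : Fin m, x i.succ) ≠ ∞ := by
  have h1 : ∫⁻ x in Om m w, ENNReal.ofReal (h - ∑ i : Fin m, x i.succ)
      ≤ ∫⁻ x in Om m w, ENNReal.ofReal h := by
    refine setLIntegral_mono' (Om_open m w).measurableSet fun x hx => ?_
    apply ENNReal.ofReal_le_ofReal
    have := Finset.sum_nonneg (s := Finset.univ) (fun i (_ : i ∈ Finset.univ) => (hx.1 (Fin.succ (n := m) i)).le)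
    linarith
  refine (lt_of_le_of_lt h1 ?_).ne
  rw [setLIntegral_const, vol_Om hm hw]
  exact ENNReal.mul_lt_top ENNReal.ofReal_lt_top (ENNReal.mul_lt_top ENNReal.ofReal_lt_top (T_fin m))

theorem main_ineq (k : ℕ) {w h c : ℝ} (hw : 0 < w) (hh : 0 < h) (hh1 : h < 1)
    (H : (1 / volume.real (Om (k + 1) w)) * ∫ x in Om (k + 1) w, ff (k + 1) h x
      ≤ (c / (μHE[k + 1] : Measure (EuclideanSpace ℝ (Fin (k + 2)))).real (frontier (Om (k + 1) w)))
        * ∫ x in frontier (Om (k + 1) w), ff (k + 1) h x ∂(μHE[k + 1])) :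
    2 * (1 - h) * (J (k + 1) h).toReal * (k + 2)
      ≤ c * ((1 + (1 + (k + 1) * w) ^ (k + 1)) * (J (k + 1) h).toReal + (k + 1) * (h * w)) := by
  rw [ff_int, ff_int] at H
  set Jr := (J (k + 1) h).toReal with hJr
  have hJ0 : 0 < Jr := ENNReal.toReal_pos (J_pos hh).ne' (J_fin hh).ne
  set V := (volume (T (k + 1) 1)).toReal with hV
  have hV0 : 0 < V := ENNReal.toReal_pos (T_pos _).ne' (T_fin _).ne
  set A := volume.real (Om (k + 1) w) with hA
  have hAeq : A = w / (k + 2) * V := by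
    rw [hA, measureReal_def, vol_Om (Nat.succ_pos k) hw, ENNReal.toReal_mul, ENNReal.toReal_ofReal (by positivity)]
    push_cast
    ring
  have hA0 : 0 < A := by rw [hAeq]; positivity
  set B := (μHE[k + 1] : Measure (EuclideanSpace ℝ (Fin (k + 2)))).real (frontier (Om (k + 1) w)) with hB
  have hBge : 2 * V ≤ B := by
    rw [hB, measureReal_def, hV]
    have := ENNReal.toReal_mono (surf_fin k hw).ne (surf_ge (k + 1) hw)
    simpa using this
  have hB0 : 0 < B := by linarith
  set C := (∫⁻ x in Om (k + 1) w, ENNReal.ofReal (h - ∑ i : Fin (k + 1), x i.succ)).toReal with hC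
  have hCge : w * (1 - h) * Jr ≤ C := by
    have := ENNReal.toReal_mono (int_Om_fin (Nat.succ_pos k) (h := h) hw) (int_Om_ge (m := k + 1) (h := h) hw)
    rwa [ENNReal.toReal_mul, ENNReal.toReal_ofReal (mul_nonneg hw.le (by linarith))] at this
  set D := (∫⁻ x in frontier (Om (k + 1) w), ENNReal.ofReal (h - ∑ i : Fin (k + 1), x i.succ) ∂(μHE[k + 1])).toReal with hD
  have hD0 : 0 ≤ D := ENNReal.toReal_nonneg
  have hDle : D ≤ (1 + (1 + (k + 1) * w) ^ (k + 1)) * Jr + (k + 1) * (h * w) := by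
    have hL : (0 : ℝ) ≤ 1 + (k + 1 : ℕ) * w := by positivity
    have hfin : J (k + 1) h + ((Real.toNNReal (1 + (k + 1 : ℕ) * w) : ℝ≥0∞) ^ (k + 1) * J (k + 1) h
        + (k + 1 : ℕ) * (ENNReal.ofReal h * ENNReal.ofReal w)) ≠ ∞ := by
      refine ENNReal.add_ne_top.2 ⟨(J_fin hh).ne, ENNReal.add_ne_top.2 ⟨?_, ?_⟩⟩
      · exact ENNReal.mul_ne_top (ENNReal.pow_ne_top ENNReal.coe_ne_top) (J_fin hh).ne
      · exact ENNReal.mul_ne_top (ENNReal.natCast_ne_top _) (ENNReal.mul_ne_top ENNReal.ofReal_ne_top ENNReal.ofReal_ne_top)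
    have h1 := ENNReal.toReal_mono hfin (int_frontier_le k (h := h) hw)
    refine le_trans h1 (le_of_eq ?_)
    rw [ENNReal.toReal_add (J_fin hh).ne (ENNReal.add_ne_top.1 hfin).2,
      ENNReal.toReal_add (ENNReal.add_ne_top.1 (ENNReal.add_ne_top.1 hfin).2).1
        (ENNReal.add_ne_top.1 (ENNReal.add_ne_top.1 hfin).2).2]
    rw [ENNReal.toReal_mul, ENNReal.toReal_mul, ENNReal.toReal_mul, ENNReal.toReal_pow,
      ENNReal.coe_toReal, Real.coe_toNNReal _ hL, ENNReal.toReal_natCast,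
      ENNReal.toReal_ofReal hh.le, ENNReal.toReal_ofReal hw.le]
    push_cast
    ring
  -- the inequality
  have h2 : C * B ≤ c * D * A := by
    have h3 : (1 / A * C) * (A * B) ≤ (c / B * D) * (A * B) :=
      mul_le_mul_of_nonneg_right H (by positivity)
    have e1 : (1 / A * C) * (A * B) = C * B := by field_simp
    have e2 : (c / B * D) * (A * B) = c * D * A := by field_simp
    rwa [e1, e2] at h3
  have h1h : 0 < 1 - h := by linarith
  have h4 : w * (1 - h) * Jr * (2 * V) ≤ c * D * A := by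
    refine le_trans ?_ h2
    exact mul_le_mul hCge hBge (by positivity) (le_trans (by positivity) hCge)
  have h5 : 0 < c := by
    have h6 : 0 < c * (D * A) := by
      rw [← mul_assoc]
      exact lt_of_lt_of_le (by positivity) h4
    exact pos_of_mul_pos_left h6 (by positivity)
  have h7 : c * D * A ≤ c * ((1 + (1 + (k + 1) * w) ^ (k + 1)) * Jr + (k + 1) * (h * w)) * A :=
    mul_le_mul_of_nonneg_right (mul_le_mul_of_nonneg_left hDle h5.le) hA0.le
  have h8 := h4.trans h7
  rw [hAeq] at h8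
  have h9 : (w * V) * (2 * (1 - h) * Jr * (k + 2))
      ≤ (w * V) * (c * ((1 + (1 + (k + 1) * w) ^ (k + 1)) * Jr + (k + 1) * (h * w))) := by
    have hk : (0 : ℝ) < (k : ℝ) + 2 := by positivity
    calc (w * V) * (2 * (1 - h) * Jr * (k + 2)) = (w * (1 - h) * Jr * (2 * V)) * (k + 2) := by ring
      _ ≤ (c * ((1 + (1 + (k + 1) * w) ^ (k + 1)) * Jr + (k + 1) * (h * w)) * (w / (k + 2) * V)) * (k + 2) :=
          mul_le_mul_of_nonneg_right h8 hk.le
      _ = _ := by field_simp
  exact le_of_mul_le_mul_left h9 (by positivity)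

/-- if the inequality holds for all the thin simplices and all the test functions, then the
constant is at least the dimension -/
theorem const_ge (k : ℕ) {c : ℝ}
    (H : ∀ w h : ℝ, 0 < w → w < 1 → 0 < h → h < 1 →
      (1 / volume.real (Om (k + 1) w)) * ∫ x in Om (k + 1) w, ff (k + 1) h x
      ≤ (c / (μHE[k + 1] : Measure (EuclideanSpace ℝ (Fin (k + 2)))).real (frontier (Om (k + 1) w)))
        * ∫ x in frontier (Om (k + 1) w), ff (k + 1) h x ∂(μHE[k + 1])) :
    ((k : ℝ) + 2) ≤ c := by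
  have h1 : ∀ h : ℝ, 0 < h → h < 1 → (1 - h) * (k + 2) ≤ c := by
    intro h hh hh1
    have hJ0 : 0 < (J (k + 1) h).toReal := ENNReal.toReal_pos (J_pos hh).ne' (J_fin hh).ne
    have h2 : ∀ w : ℝ, 0 < w → w < 1 → 2 * (1 - h) * (J (k + 1) h).toReal * (k + 2)
        ≤ c * ((1 + (1 + (k + 1) * w) ^ (k + 1)) * (J (k + 1) h).toReal + (k + 1) * (h * w)) :=
      fun w hw hw1 => main_ineq k hw hh hh1 (H w h hw hw1 hh hh1)
    have h3 : Tendsto (fun w : ℝ => c * ((1 + (1 + (k + 1) * w) ^ (k + 1)) * (J (k + 1) h).toReal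
        + (k + 1) * (h * w))) (𝓝[>] 0) (𝓝 (c * ((1 + (1 + (k + 1) * (0 : ℝ)) ^ (k + 1)) * (J (k + 1) h).toReal
        + (k + 1) * (h * 0)))) := by
      apply Continuous.continuousWithinAt
      fun_prop
    have h4 := ge_of_tendsto h3 (b := 2 * (1 - h) * (J (k + 1) h).toReal * (k + 2)) (by
      filter_upwards [Ioo_mem_nhdsGT (zero_lt_one (α := ℝ))] with w hw
      exact h2 w hw.1 hw.2)
    simp only [mul_zero, add_zero, one_pow] at h4
    have h5 : (2 * (J (k + 1) h).toReal) * ((1 - h) * (k + 2)) ≤ (2 * (J (k + 1) h).toReal) * c := by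
      linarith
    exact le_of_mul_le_mul_left h5 (by positivity)
  have h3 : Tendsto (fun h : ℝ => (1 - h) * ((k : ℝ) + 2)) (𝓝[>] 0) (𝓝 ((1 - 0) * ((k : ℝ) + 2))) := by
    apply Continuous.continuousWithinAt
    fun_prop
  have h4 := le_of_tendsto h3 (b := c) (by
    filter_upwards [Ioo_mem_nhdsGT (zero_lt_one (α := ℝ))] with h hh
    exact h1 h hh.1 hh.2)
  linarith

end Pool.Agent.Helper155_HH
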